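import Pool.Agent.Helper76.UN.Defs

/-!
# MP_506470_co : the limit of a strong amalgamation class of finite graphs
-/

namespace SetHom
namespace UN

open Finset

variable {V ι κ T : Type}

/-- One more point of `Y` in the base of a one-point extension. -/
theorem grow_one {C : ∀ ι : Type, SimpleGraph ι → Prop} (hher : Hered C) (hsap : SAP C)
    [DecidableEq V] {A : SimpleGraph V} {X : Finset V} {a : V} (ha : a ∉ X)
    (hC : C _ (A.induce (insert a X : Finset V)))
    {S : V → Prop} (hS : C _ (ext (A.induce (X : Set V)) (fun x => S x))) :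
    ∃ S' : V → Prop, (∀ x ∈ X, (S' x ↔ S x)) ∧
      C _ (ext (A.induce ((insert a X : Finset V) : Set V)) (fun x => S' x)) := by
  classical
  have h1 : C _ (ext (A.induce (X : Set V)) (fun x => A.Adj a x)) := by
    refine hher _ _ _ _ ?_ hC
    refine ⟨⟨fun o => match o with
      | none => ⟨a, by simp⟩
      | some x => ⟨x.1, by simp [x.2]⟩, ?_⟩, ?_⟩
    · rintro (_ | ⟨x, hx⟩) (_ | ⟨y, hy⟩) h
      · rfl
      · exfalso
        have : a = y := congrArg Subtype.val h
        subst this
        exact ha hy
      · exfalso
        have : x = a := congrArg Subtype.val h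
        subst this
        exact ha hx
      · have : x = y := congrArg Subtype.val h
        subst this
        rfl
    · rintro (_ | ⟨x, hx⟩) (_ | ⟨y, hy⟩)
      · simp
      · exact Iff.rfl
      · exact A.adj_comm _ _
      · exact Iff.rfl
  obtain ⟨e, he⟩ := hsap _ _ _ _ h1 hS
  refine ⟨fun x => if x = a then e else S x, ?_, ?_⟩
  · intro x hx
    have : x ≠ a := by
      rintro rfl
      exact ha hx
    show (if x = a then e else S x) ↔ S x
    rw [if_neg this]
  · refine hher _ _ _ _ ?_ he
    have hmem : ∀ x : ((insert a X : Finset V) : Set V), x.1 ≠ a → x.1 ∈ X := by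
      rintro ⟨x, hx⟩ hxa
      have : x ∈ insert a X := hx
      rw [Finset.mem_insert] at this
      rcases this with h | h
      · exact absurd h hxa
      · exact h
    refine ⟨⟨fun o => match o with
      | none => none
      | some x => some (if hx : x.1 = a then none else some ⟨x.1, hmem x hx⟩), ?_⟩, ?_⟩
    · rintro (_ | x) (_ | y) h
      · rfl
      · exact absurd h (by simp)
      · exact absurd h (by simp)
      · have h' := Option.some.inj h
        by_cases hx : x.1 = a <;> by_cases hy : y.1 = a
        · have : x = y := Subtype.ext (hx.trans hy.symm)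
          rw [this]
        · simp [hx, hy] at h'
        · simp [hx, hy] at h'
        · simp only [hx, hy, dif_neg, not_false_iff, Option.some.injEq, Subtype.mk.injEq] at h'
          rw [Subtype.ext h']
    · rintro (_ | x) (_ | y)
      · exact Iff.rfl
      · by_cases hy : y.1 = a
        · simp [hy]
        · simp [hy]
      · by_cases hx : x.1 = a
        · simp [hx]
        · simp [hx]
      · by_cases hx : x.1 = a <;> by_cases hy : y.1 = a
        · have : x = y := Subtype.ext (hx.trans hy.symm)
          subst this
          simp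
        · simp [hx, hy]
        · simp [hx, hy, A.adj_comm]
        · simp [hx, hy]

/-- One-point extensions of a part of the base extend to the whole base. -/
theorem grow {C : ∀ ι : Type, SimpleGraph ι → Prop} (hher : Hered C) (hsap : SAP C)
    {A : SimpleGraph V} {X Y : Finset V} (hXY : X ⊆ Y)
    (hC : C _ (A.induce (Y : Set V)))
    {S : V → Prop} (hS : C _ (ext (A.induce (X : Set V)) (fun x => S x))) :
    ∃ S' : V → Prop, (∀ x ∈ X, (S' x ↔ S x)) ∧
      C _ (ext (A.induce (Y : Set V)) (fun x => S' x)) := by
  classical
  have hsub : ∀ Z Y' : Finset V, Z ⊆ Y' → C _ (A.induce (Y' : Set V)) → C _ (A.induce (Z : Set V)) := by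
    intro Z Y' hZ hY
    refine hher _ _ _ _ ?_ hY
    exact SimpleGraph.induceHomOfLE A (by exact_mod_cast hZ)
  have key : ∀ Z : Finset V, Z ⊆ Y → ∃ S' : V → Prop, (∀ x ∈ X, (S' x ↔ S x)) ∧
      C _ (ext (A.induce ((X ∪ Z : Finset V) : Set V)) (fun x => S' x)) := by
    intro Z
    induction Z using Finset.induction_on with
    | empty =>
      intro _
      refine ⟨S, fun x _ => Iff.rfl, ?_⟩
      rw [Finset.union_empty]
      exact hS
    | insert a Z haZ ih =>
      intro hZ
      obtain ⟨S', h1, h2⟩ := ih (fun x hx => hZ (Finset.mem_insert_of_mem hx))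
      by_cases ha : a ∈ X ∪ Z
      · refine ⟨S', h1, ?_⟩
        have : X ∪ insert a Z = X ∪ Z := by
          rw [Finset.union_insert, Finset.insert_eq_of_mem ha]
        rw [this]
        exact h2
      · obtain ⟨S'', h3, h4⟩ := grow_one hher hsap ha (hsub _ Y (by
          intro x hx
          rw [Finset.mem_insert, Finset.mem_union] at hx
          rcases hx with rfl | hx | hx
          · exact hZ (Finset.mem_insert_self _ _)
          · exact hXY hx
          · exact hZ (Finset.mem_insert_of_mem hx)) hC) h2
        refine ⟨S'', ?_, ?_⟩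
        · intro x hx
          rw [h3 x (Finset.mem_union_left _ hx)]
          exact h1 x hx
        · rw [Finset.union_insert]
          exact h4
  obtain ⟨S', h1, h2⟩ := key Y (Finset.Subset.refl _)
  refine ⟨S', h1, ?_⟩
  rw [Finset.union_eq_right.2 hXY] at h2
  exact h2

/-- The graph `A` on `{0, …, n-1}` and the vertex `n` with set of neighbours `S`. -/
def addv (n : ℕ) (A : SimpleGraph ℕ) (S : ℕ → Prop) : SimpleGraph ℕ where
  Adj i j := (i < n ∧ j < n ∧ A.Adj i j) ∨ (i = n ∧ j < n ∧ S j) ∨ (j = n ∧ i < n ∧ S i)
  symm := ⟨by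
    rintro i j (⟨h1, h2, h3⟩ | ⟨h1, h2, h3⟩ | ⟨h1, h2, h3⟩)
    · exact Or.inl ⟨h2, h1, h3.symm⟩
    · exact Or.inr (Or.inr ⟨h1, h2, h3⟩)
    · exact Or.inr (Or.inl ⟨h1, h2, h3⟩)⟩
  loopless := ⟨by
    rintro i (⟨_, _, h⟩ | ⟨h1, h2, _⟩ | ⟨h1, h2, _⟩)
    · exact A.loopless.irrefl i h
    · omega
    · omega⟩

theorem addv_old {n : ℕ} {A : SimpleGraph ℕ} {S : ℕ → Prop} {i j : ℕ} (hi : i < n) (hj : j < n) :
    (addv n A S).Adj i j ↔ A.Adj i j := by
  show (i < n ∧ j < n ∧ A.Adj i j) ∨ (i = n ∧ j < n ∧ S j) ∨ (j = n ∧ i < n ∧ S i) ↔ A.Adj i j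
  have h1 : i ≠ n := by omega
  have h2 : j ≠ n := by omega
  simp [hi, hj, h1, h2]

theorem addv_new {n : ℕ} {A : SimpleGraph ℕ} {S : ℕ → Prop} {j : ℕ} (hj : j < n) :
    (addv n A S).Adj n j ↔ S j := by
  show (n < n ∧ j < n ∧ A.Adj n j) ∨ (n = n ∧ j < n ∧ S j) ∨ (j = n ∧ n < n ∧ S n) ↔ S j
  simp [hj]

section
variable (C : ∀ ι : Type, SimpleGraph ι → Prop) (f : ℕ → Finset ℕ × Finset ℕ)

/-- `S` is a good choice for the vertex `n` over the graph `A` on `{0, …, n-1}`. -/
def GoodS (n : ℕ) (A : SimpleGraph ℕ) (S : ℕ → Prop) : Prop :=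
  C _ (ext (A.induce ((range n : Finset ℕ) : Set ℕ)) (fun x => S x)) ∧
    ((f n).1 ⊆ range n → C _ (ext (A.induce (((f n).1 : Finset ℕ) : Set ℕ)) (fun x => x.1 ∈ (f n).2)) →
      ∀ x ∈ (f n).1, (S x ↔ x ∈ (f n).2))

open Classical in
/-- One step of the construction. -/
noncomputable def stepA (n : ℕ) (A : SimpleGraph ℕ) : SimpleGraph ℕ :=
  if h : ∃ S, GoodS C f n A S then addv n A h.choose else A

/-- The finite stages. -/
noncomputable def seqA : ℕ → SimpleGraph ℕ
  | 0 => ⊥
  | n + 1 => stepA C f n (seqA n)

/-- The limit. -/
noncomputable def limA : SimpleGraph ℕ where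
  Adj i j := (seqA C f (max i j + 1)).Adj i j
  symm := ⟨by
    intro i j h
    rw [max_comm]
    exact h.symm⟩
  loopless := ⟨fun i h => (seqA C f _).loopless.irrefl i h⟩

variable {C f}

theorem seqA_old {n : ℕ} {i j : ℕ} (hi : i < n) (hj : j < n) :
    (seqA C f (n + 1)).Adj i j ↔ (seqA C f n).Adj i j := by
  show (stepA C f n (seqA C f n)).Adj i j ↔ (seqA C f n).Adj i j
  unfold stepA
  split_ifs with h
  · exact addv_old hi hj
  · exact Iff.rfl

theorem seqA_stable {n m : ℕ} (hnm : n ≤ m) {i j : ℕ} (hi : i < n) (hj : j < n) :
    (seqA C f m).Adj i j ↔ (seqA C f n).Adj i j := by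
  induction m, hnm using Nat.le_induction with
  | base => exact Iff.rfl
  | succ m hm ih => rw [seqA_old (by omega) (by omega), ih]

theorem limA_adj {n : ℕ} {i j : ℕ} (hi : i < n) (hj : j < n) :
    (limA C f).Adj i j ↔ (seqA C f n).Adj i j := by
  show (seqA C f (max i j + 1)).Adj i j ↔ _
  exact (seqA_stable (by omega) (by omega) (by omega)).symm

theorem induce_limA {n : ℕ} {X : Finset ℕ} (hX : X ⊆ range n) :
    (limA C f).induce (X : Set ℕ) = (seqA C f n).induce (X : Set ℕ) := by
  ext ⟨i, hi⟩ ⟨j, hj⟩
  exact limA_adj (Finset.mem_range.1 (hX hi)) (Finset.mem_range.1 (hX hj))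

variable (hher : Hered C) (hsap : SAP C) (hone : C Unit ⊥)
include hher hsap hone

theorem seqA_spec (n : ℕ) : C _ ((seqA C f n).induce ((range n : Finset ℕ) : Set ℕ)) ∧
    ∃ S, GoodS C f n (seqA C f n) S := by
  classical
  have hgood : ∀ (n : ℕ) (A : SimpleGraph ℕ), C _ (A.induce ((range n : Finset ℕ) : Set ℕ)) →
      ∃ S, GoodS C f n A S := by
    intro n A hA
    by_cases h : (f n).1 ⊆ range n ∧
        C _ (ext (A.induce (((f n).1 : Finset ℕ) : Set ℕ)) (fun x => x.1 ∈ (f n).2))
    · obtain ⟨S, h1, h2⟩ := grow hher hsap h.1 hA (S := fun x => x ∈ (f n).2) h.2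
      exact ⟨S, h2, fun _ _ => h1⟩
    · obtain ⟨S, h1, h2⟩ := grow hher hsap (Finset.empty_subset (range n)) hA
        (S := fun _ => False) (by
          refine hher _ _ _ _ ?_ hone
          refine ⟨⟨fun _ => (), ?_⟩, ?_⟩
          · rintro (_ | ⟨x, hx⟩) (_ | ⟨y, hy⟩) _
            · rfl
            · exact absurd hy (by simp)
            · exact absurd hx (by simp)
            · exact absurd hx (by simp)
          · rintro (_ | ⟨x, hx⟩) (_ | ⟨y, hy⟩)
            · simp
            · exact absurd hy (by simp)
            · exact absurd hx (by simp)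
            · exact absurd hx (by simp))
      exact ⟨S, h2, fun h3 h4 => absurd ⟨h3, h4⟩ h⟩
  have hC : ∀ n, C _ ((seqA C f n).induce ((range n : Finset ℕ) : Set ℕ)) := by
    intro n
    induction n with
    | zero =>
      refine hher _ _ _ _ ?_ hone
      refine ⟨⟨fun _ => (), ?_⟩, ?_⟩
      · rintro ⟨x, hx⟩
        exact absurd hx (by simp)
      · rintro ⟨x, hx⟩
        exact absurd hx (by simp)
    | succ n ih =>
      have hex := hgood n _ ih
      have hstep : seqA C f (n + 1) = addv n (seqA C f n) hex.choose := by
        show stepA C f n (seqA C f n) = _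
        unfold stepA
        rw [dif_pos hex]
      rw [hstep]
      refine hher _ _ _ _ ?_ hex.choose_spec.1
      have hmem : ∀ x : ((range (n + 1) : Finset ℕ) : Set ℕ), x.1 ≠ n → x.1 ∈ range n := by
        rintro ⟨x, hx⟩ hxn
        have : x < n + 1 := Finset.mem_range.1 hx
        rw [Finset.mem_range]
        show x < n
        have h5 : x ≠ n := hxn
        omega
      refine ⟨⟨fun x => if hx : x.1 = n then none else some ⟨x.1, hmem x hx⟩, ?_⟩, ?_⟩
      · intro x y hxy
        by_cases hx : x.1 = n <;> by_cases hy : y.1 = n
        · exact Subtype.ext (hx.trans hy.symm)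
        · simp [hx, hy] at hxy
        · simp [hx, hy] at hxy
        · simp only [hx, hy, dif_neg, not_false_iff, Option.some.injEq, Subtype.mk.injEq] at hxy
          exact Subtype.ext hxy
      · intro x y
        by_cases hx : x.1 = n <;> by_cases hy : y.1 = n
        · have : x = y := Subtype.ext (hx.trans hy.symm)
          subst this
          simp
        · have h6 := hmem y hy
          rw [Finset.mem_range] at h6
          simp only [Function.Embedding.coeFn_mk, hx, hy, dif_pos, dif_neg, not_false_iff, ext_ns,
            SimpleGraph.comap_adj, Function.Embedding.subtype_apply]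
          exact (addv_new h6).symm
        · have h6 := hmem x hx
          rw [Finset.mem_range] at h6
          simp only [Function.Embedding.coeFn_mk, hx, hy, dif_pos, dif_neg, not_false_iff, ext_sn,
            SimpleGraph.comap_adj, Function.Embedding.subtype_apply]
          rw [SimpleGraph.adj_comm]
          exact (addv_new h6).symm
        · have h6 := hmem x hx
          have h7 := hmem y hy
          rw [Finset.mem_range] at h6 h7
          simp only [Function.Embedding.coeFn_mk, hx, hy, dif_neg, not_false_iff, ext_ss,
            SimpleGraph.comap_adj, Function.Embedding.subtype_apply]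
          exact (addv_old h6 h7).symm
  exact ⟨hC n, hgood n _ (hC n)⟩

theorem limA_mem (X : Finset ℕ) : C _ ((limA C f).induce (X : Set ℕ)) := by
  obtain ⟨n, hn⟩ : ∃ n, X ⊆ range n := by
    refine ⟨X.sup id + 1, fun x hx => ?_⟩
    rw [Finset.mem_range]
    have : id x ≤ X.sup id := Finset.le_sup hx
    simp only [id] at this
    omega
  rw [induce_limA hn]
  refine hher _ _ _ _ ?_ (seqA_spec (f := f) hher hsap hone n).1
  exact SimpleGraph.induceHomOfLE _ (by exact_mod_cast hn)

theorem limA_real (hf : ∀ (p : Finset ℕ × Finset ℕ) (N : ℕ), ∃ n, N ≤ n ∧ f n = p)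
    (X T : Finset ℕ) (h : C _ (ext ((limA C f).induce (X : Set ℕ)) (fun x => x.1 ∈ T))) :
    ∃ b, b ∉ X ∧ ∀ x ∈ X, ((limA C f).Adj b x ↔ x ∈ T) := by
  classical
  obtain ⟨n0, hn0⟩ : ∃ n, X ⊆ range n := by
    refine ⟨X.sup id + 1, fun x hx => ?_⟩
    rw [Finset.mem_range]
    have : id x ≤ X.sup id := Finset.le_sup hx
    simp only [id] at this
    omega
  obtain ⟨n, hn, hfn⟩ := hf (X, T) n0
  have hX : X ⊆ range n := by
    intro x hx
    have := Finset.mem_range.1 (hn0 hx)
    rw [Finset.mem_range]
    omega
  obtain ⟨-, hex⟩ := seqA_spec (f := f) hher hsap hone n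
  have hstep : seqA C f (n + 1) = addv n (seqA C f n) hex.choose := by
    show stepA C f n (seqA C f n) = _
    unfold stepA
    rw [dif_pos hex]
  have hgood := hex.choose_spec.2
  rw [hfn] at hgood
  rw [induce_limA hX] at h
  have h1 := hgood hX h
  refine ⟨n, fun hnX => ?_, ?_⟩
  · have := Finset.mem_range.1 (hX hnX)
    omega
  · intro x hx
    have hxn := Finset.mem_range.1 (hX hx)
    rw [limA_adj (n := n + 1) (by omega) (by omega), hstep, addv_new hxn]
    exact h1 x hx

/-- The limit of a strong amalgamation class. -/
theorem exists_limit : ∃ H : SimpleGraph ℕ, OPE H ∧ ∀ (ι : Type) [Finite ι] (Q : SimpleGraph ι),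
    C ι Q ↔ Nonempty (Q ↪g H) := by
  classical
  obtain ⟨g, hg⟩ := exists_surjective_nat (Finset ℕ × Finset ℕ)
  let f : ℕ → Finset ℕ × Finset ℕ := fun n => g n.unpair.1
  have hf : ∀ (p : Finset ℕ × Finset ℕ) (N : ℕ), ∃ n, N ≤ n ∧ f n = p := by
    intro p N
    obtain ⟨k, hk⟩ := hg p
    refine ⟨Nat.pair k N, Nat.right_le_pair k N, ?_⟩
    show g (Nat.unpair (Nat.pair k N)).1 = p
    rw [Nat.unpair_pair]
    exact hk
  have hreal := fun X T => limA_real (f := f) hher hsap hone hf X T
  have hmemC := fun X => limA_mem (f := f) hher hsap hone X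
  refine ⟨limA C f, ?_, ?_⟩
  · intro U φ hφ hadj a ha
    have hC : C _ (ext ((limA C f).induce ((U.image φ : Finset ℕ) : Set ℕ))
        (fun x => x.1 ∈ (U.filter (fun u => (limA C f).Adj a u)).image φ)) := by
      refine hher _ _ _ _ ?_ (hmemC (insert a U))
      have hpre : ∀ x : ((U.image φ : Finset ℕ) : Set ℕ), ∃ u ∈ U, φ u = x.1 := by
        rintro ⟨x, hx⟩
        exact Finset.mem_image.1 hx
      choose u hu huφ using hpre
      refine ⟨⟨fun o => match o with
        | none => ⟨a, by simp⟩
        | some x => ⟨u x, by simp [hu x]⟩, ?_⟩, ?_⟩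
      · rintro (_ | x) (_ | y) h
        · rfl
        · exfalso
          have : a = u y := congrArg Subtype.val h
          exact ha (this ▸ hu y)
        · exfalso
          have : u x = a := congrArg Subtype.val h
          exact ha (this ▸ hu x)
        · have h1 : u x = u y := congrArg Subtype.val h
          have h2 : x = y := Subtype.ext (by rw [← huφ x, ← huφ y, h1])
          rw [h2]
      · rintro (_ | x) (_ | y)
        · simp
        · show (limA C f).Adj a (u y) ↔ y.1 ∈ (U.filter (fun u => (limA C f).Adj a u)).image φ
          rw [Finset.mem_image]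
          constructor
          · intro h
            exact ⟨u y, Finset.mem_filter.2 ⟨hu y, h⟩, huφ y⟩
          · rintro ⟨z, hz, hzy⟩
            rw [Finset.mem_filter] at hz
            have : z = u y := hφ hz.1 (hu y) (hzy.trans (huφ y).symm)
            rw [← this]
            exact hz.2
        · show (limA C f).Adj (u x) a ↔ x.1 ∈ (U.filter (fun u => (limA C f).Adj a u)).image φ
          rw [Finset.mem_image, SimpleGraph.adj_comm]
          constructor
          · intro h
            exact ⟨u x, Finset.mem_filter.2 ⟨hu x, h⟩, huφ x⟩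
          · rintro ⟨z, hz, hzx⟩
            rw [Finset.mem_filter] at hz
            have : z = u x := hφ hz.1 (hu x) (hzx.trans (huφ x).symm)
            rw [← this]
            exact hz.2
        · show (limA C f).Adj (u x) (u y) ↔ (limA C f).Adj x.1 y.1
          rw [← hadj _ (hu x) _ (hu y), huφ, huφ]
    obtain ⟨b, hb, hb2⟩ := hreal _ _ hC
    refine ⟨b, ?_, ?_⟩
    · intro x hx h
      exact hb (h ▸ Finset.mem_image_of_mem φ hx)
    · intro x hx
      rw [hb2 _ (Finset.mem_image_of_mem φ hx), Finset.mem_image]
      constructor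
      · rintro ⟨z, hz, hzx⟩
        rw [Finset.mem_filter] at hz
        have : z = x := hφ hz.1 hx hzx
        rw [← this]
        exact hz.2
      · intro h
        exact ⟨x, Finset.mem_filter.2 ⟨hx, h⟩, rfl⟩
  · intro ι _ Q
    constructor
    · intro hQ
      have _ := Fintype.ofFinite ι
      have key : ∀ X : Finset ι, ∃ φ : ι → ℕ, Set.InjOn φ X ∧
          ∀ x ∈ X, ∀ y ∈ X, ((limA C f).Adj (φ x) (φ y) ↔ Q.Adj x y) := by
        intro X
        induction X using Finset.induction_on with
        | empty => exact ⟨fun _ => 0, by simp, by simp⟩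
        | insert a X haX ih =>
          obtain ⟨φ, h1, h2⟩ := ih
          have hC : C _ (ext ((limA C f).induce ((X.image φ : Finset ℕ) : Set ℕ))
              (fun x => x.1 ∈ (X.filter (fun u => Q.Adj a u)).image φ)) := by
            refine hher _ _ _ _ ?_ hQ
            have hpre : ∀ x : ((X.image φ : Finset ℕ) : Set ℕ), ∃ u ∈ X, φ u = x.1 := by
              rintro ⟨x, hx⟩
              exact Finset.mem_image.1 hx
            choose u hu huφ using hpre
            refine ⟨⟨fun o => match o with
              | none => a
              | some x => u x, ?_⟩, ?_⟩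
            · rintro (_ | x) (_ | y) h
              · rfl
              · exfalso
                have : a = u y := h
                exact haX (this ▸ hu y)
              · exfalso
                have : u x = a := h
                exact haX (this ▸ hu x)
              · have h3 : u x = u y := h
                have h4 : x = y := Subtype.ext (by rw [← huφ x, ← huφ y, h3])
                rw [h4]
            · rintro (_ | x) (_ | y)
              · simp
              · show Q.Adj a (u y) ↔ y.1 ∈ (X.filter (fun u => Q.Adj a u)).image φ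
                rw [Finset.mem_image]
                constructor
                · intro h
                  exact ⟨u y, Finset.mem_filter.2 ⟨hu y, h⟩, huφ y⟩
                · rintro ⟨z, hz, hzy⟩
                  rw [Finset.mem_filter] at hz
                  have : z = u y := h1 hz.1 (hu y) (hzy.trans (huφ y).symm)
                  rw [← this]
                  exact hz.2
              · show Q.Adj (u x) a ↔ x.1 ∈ (X.filter (fun u => Q.Adj a u)).image φ
                rw [Finset.mem_image, SimpleGraph.adj_comm]
                constructor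
                · intro h
                  exact ⟨u x, Finset.mem_filter.2 ⟨hu x, h⟩, huφ x⟩
                · rintro ⟨z, hz, hzx⟩
                  rw [Finset.mem_filter] at hz
                  have : z = u x := h1 hz.1 (hu x) (hzx.trans (huφ x).symm)
                  rw [← this]
                  exact hz.2
              · show Q.Adj (u x) (u y) ↔ (limA C f).Adj x.1 y.1
                rw [← h2 _ (hu x) _ (hu y), huφ, huφ]
          obtain ⟨b, hb, hb2⟩ := hreal _ _ hC
          have hb3 : ∀ x ∈ X, ((limA C f).Adj b (φ x) ↔ Q.Adj a x) := by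
            intro x hx
            rw [hb2 _ (Finset.mem_image_of_mem φ hx), Finset.mem_image]
            constructor
            · rintro ⟨z, hz, hzx⟩
              rw [Finset.mem_filter] at hz
              have : z = x := h1 hz.1 hx hzx
              rw [← this]
              exact hz.2
            · intro h
              exact ⟨x, Finset.mem_filter.2 ⟨hx, h⟩, rfl⟩
          have hne : ∀ x ∈ X, x ≠ a := by
            rintro x hx rfl
            exact haX hx
          refine ⟨fun x => if x = a then b else φ x, ?_, ?_⟩
          · intro x hx y hy hxy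
            rw [Finset.coe_insert, Set.mem_insert_iff, Finset.mem_coe] at hx hy
            rcases hx with rfl | hx <;> rcases hy with rfl | hy
            · rfl
            · exfalso
              simp only [if_true, if_neg (hne y hy)] at hxy
              exact hb (hxy ▸ Finset.mem_image_of_mem φ hy)
            · exfalso
              simp only [if_true, if_neg (hne x hx)] at hxy
              exact hb (hxy ▸ Finset.mem_image_of_mem φ hx)
            · simp only [if_neg (hne x hx), if_neg (hne y hy)] at hxy
              exact h1 hx hy hxy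
          · intro x hx y hy
            rw [Finset.mem_insert] at hx hy
            rcases hx with rfl | hx <;> rcases hy with rfl | hy
            · simp
            · simp only [if_true, if_neg (hne y hy)]
              exact hb3 y hy
            · simp only [if_true, if_neg (hne x hx)]
              rw [SimpleGraph.adj_comm, Q.adj_comm]
              exact hb3 x hx
            · simp only [if_neg (hne x hx), if_neg (hne y hy)]
              exact h2 x hx y hy
      obtain ⟨φ, h1, h2⟩ := key Finset.univ
      refine ⟨⟨⟨φ, fun x y h => h1 (by simp) (by simp) h⟩, ?_⟩⟩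
      intro x y
      exact h2 x (by simp) y (by simp)
    · rintro ⟨φ⟩
      have _ := Fintype.ofFinite ι
      refine hher _ _ _ _ ?_ (hmemC (Finset.univ.image φ))
      refine ⟨⟨fun x => ⟨φ x, by simp⟩, ?_⟩, ?_⟩
      · intro x y h
        exact φ.injective (congrArg Subtype.val h)
      · intro x y
        exact φ.map_adj_iff

end

end UN
end SetHom
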