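import Pool.Agent.Helper25.DI.Main

/-!
# MP_506470_co : free classes over independent sets, definitions

`H` is a weakly set-homogeneous graph in which all subsets of finite independent sets are traces
(`WSH H`, `ShI H`, `Ind H`). It is used for a set-homogeneous graph and for the links of cliques.
-/

namespace SetHom
namespace UN

variable {V ι κ T : Type}

/-- Independent sets of all finite sizes. -/
def Ind (H : SimpleGraph V) : Prop := ∀ n : ℕ, ∃ A : Finset V, Indep H A ∧ A.card = n

/-- The graph `Q` together with an independent set `κ`; `c k` is the set of neighbours of `k` in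
`Q` (the column of `k`). -/
def cocl (Q : SimpleGraph ι) (c : κ → ι → Prop) : SimpleGraph (ι ⊕ κ) where
  Adj a b := match a, b with
    | Sum.inl i, Sum.inl j => Q.Adj i j
    | Sum.inl i, Sum.inr k => c k i
    | Sum.inr k, Sum.inl i => c k i
    | Sum.inr _, Sum.inr _ => False
  symm := ⟨by
    rintro (i | k) (j | l) h
    · exact SimpleGraph.Adj.symm (G := Q) h
    · exact h
    · exact h
    · exact h⟩
  loopless := ⟨by
    rintro (i | k) h
    · exact Q.loopless.irrefl i h
    · exact h⟩

@[simp] theorem cocl_ll (Q : SimpleGraph ι) (c : κ → ι → Prop) (i j : ι) :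
    (cocl Q c).Adj (Sum.inl i) (Sum.inl j) ↔ Q.Adj i j := Iff.rfl
@[simp] theorem cocl_lr (Q : SimpleGraph ι) (c : κ → ι → Prop) (i : ι) (k : κ) :
    (cocl Q c).Adj (Sum.inl i) (Sum.inr k) ↔ c k i := Iff.rfl
@[simp] theorem cocl_rl (Q : SimpleGraph ι) (c : κ → ι → Prop) (i : ι) (k : κ) :
    (cocl Q c).Adj (Sum.inr k) (Sum.inl i) ↔ c k i := Iff.rfl
@[simp] theorem cocl_rr (Q : SimpleGraph ι) (c : κ → ι → Prop) (k l : κ) :
    (cocl Q c).Adj (Sum.inr k) (Sum.inr l) ↔ False := Iff.rfl

/-- The graph `Q` together with one vertex `none` whose set of neighbours is `S`. -/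
def ext (Q : SimpleGraph ι) (S : ι → Prop) : SimpleGraph (Option ι) where
  Adj a b := match a, b with
    | some i, some j => Q.Adj i j
    | some i, none => S i
    | none, some i => S i
    | none, none => False
  symm := ⟨by
    rintro (_ | i) (_ | j) h
    · exact h
    · exact h
    · exact h
    · exact SimpleGraph.Adj.symm (G := Q) h⟩
  loopless := ⟨by
    rintro (_ | i) h
    · exact h
    · exact Q.loopless.irrefl i h⟩

@[simp] theorem ext_ss (Q : SimpleGraph ι) (S : ι → Prop) (i j : ι) :
    (ext Q S).Adj (some i) (some j) ↔ Q.Adj i j := Iff.rfl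
@[simp] theorem ext_sn (Q : SimpleGraph ι) (S : ι → Prop) (i : ι) :
    (ext Q S).Adj (some i) none ↔ S i := Iff.rfl
@[simp] theorem ext_ns (Q : SimpleGraph ι) (S : ι → Prop) (i : ι) :
    (ext Q S).Adj none (some i) ↔ S i := Iff.rfl
@[simp] theorem ext_nn (Q : SimpleGraph ι) (S : ι → Prop) :
    (ext Q S).Adj none none ↔ False := Iff.rfl

/-- The graph `Q` together with two vertices: `some none` with neighbours `S` in `Q`, and `none`
with neighbours `T` in `Q`; they are adjacent if and only if `e`. -/
def ext2 (Q : SimpleGraph ι) (S T : ι → Prop) (e : Prop) : SimpleGraph (Option (Option ι)) :=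
  ext (ext Q S) (fun a => match a with
    | none => e
    | some i => T i)

@[simp] theorem ext2_qq (Q : SimpleGraph ι) (S T : ι → Prop) (e : Prop) (i j : ι) :
    (ext2 Q S T e).Adj (some (some i)) (some (some j)) ↔ Q.Adj i j := Iff.rfl
@[simp] theorem ext2_qx (Q : SimpleGraph ι) (S T : ι → Prop) (e : Prop) (i : ι) :
    (ext2 Q S T e).Adj (some (some i)) (some none) ↔ S i := Iff.rfl
@[simp] theorem ext2_xq (Q : SimpleGraph ι) (S T : ι → Prop) (e : Prop) (i : ι) :
    (ext2 Q S T e).Adj (some none) (some (some i)) ↔ S i := Iff.rfl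
@[simp] theorem ext2_qy (Q : SimpleGraph ι) (S T : ι → Prop) (e : Prop) (i : ι) :
    (ext2 Q S T e).Adj (some (some i)) none ↔ T i := Iff.rfl
@[simp] theorem ext2_yq (Q : SimpleGraph ι) (S T : ι → Prop) (e : Prop) (i : ι) :
    (ext2 Q S T e).Adj none (some (some i)) ↔ T i := Iff.rfl
@[simp] theorem ext2_xy (Q : SimpleGraph ι) (S T : ι → Prop) (e : Prop) :
    (ext2 Q S T e).Adj (some none) none ↔ e := Iff.rfl
@[simp] theorem ext2_yx (Q : SimpleGraph ι) (S T : ι → Prop) (e : Prop) :
    (ext2 Q S T e).Adj none (some none) ↔ e := Iff.rfl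

/-- The graph `Q` together with the vertices of `P`, which are pairwise adjacent (if `b`) or
pairwise non-adjacent (if not `b`) and all have the set of neighbours `τ` in `Q`. -/
def twins (Q : SimpleGraph ι) (τ : ι → Prop) (b : Prop) (P : Type) : SimpleGraph (ι ⊕ P) where
  Adj x y := match x, y with
    | Sum.inl i, Sum.inl j => Q.Adj i j
    | Sum.inl i, Sum.inr _ => τ i
    | Sum.inr _, Sum.inl i => τ i
    | Sum.inr p, Sum.inr q => p ≠ q ∧ b
  symm := ⟨by
    rintro (i | p) (j | q) h
    · exact SimpleGraph.Adj.symm (G := Q) h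
    · exact h
    · exact h
    · exact ⟨h.1.symm, h.2⟩⟩
  loopless := ⟨by
    rintro (i | p) h
    · exact Q.loopless.irrefl i h
    · exact h.1 rfl⟩

@[simp] theorem twins_ll (Q : SimpleGraph ι) (τ : ι → Prop) (b : Prop) (P : Type) (i j : ι) :
    (twins Q τ b P).Adj (Sum.inl i) (Sum.inl j) ↔ Q.Adj i j := Iff.rfl
@[simp] theorem twins_lr (Q : SimpleGraph ι) (τ : ι → Prop) (b : Prop) (P : Type) (i : ι)
    (p : P) : (twins Q τ b P).Adj (Sum.inl i) (Sum.inr p) ↔ τ i := Iff.rfl
@[simp] theorem twins_rl (Q : SimpleGraph ι) (τ : ι → Prop) (b : Prop) (P : Type) (i : ι)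
    (p : P) : (twins Q τ b P).Adj (Sum.inr p) (Sum.inl i) ↔ τ i := Iff.rfl
@[simp] theorem twins_rr (Q : SimpleGraph ι) (τ : ι → Prop) (b : Prop) (P : Type) (p q : P) :
    (twins Q τ b P).Adj (Sum.inr p) (Sum.inr q) ↔ p ≠ q ∧ b := Iff.rfl

/-- The finite graph `Q` is free over independent sets in `H`: `Q` together with any finite
independent set, with any relation between them, is an induced subgraph of `H`. -/
def InU (H : SimpleGraph V) (Q : SimpleGraph ι) : Prop :=
  ∀ (n : ℕ) (c : Fin n → ι → Prop), Nonempty (cocl Q c ↪g H)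

/-- The blow-up property of `Q`: there are arbitrarily large homogeneous sets of vertices of one
type over `Q`, free together with `Q`. -/
def BL (H : SimpleGraph V) (Q : SimpleGraph ι) : Prop :=
  ∃ (τ : ι → Prop) (b : Prop), ∀ n : ℕ, InU H (twins Q τ b (Fin n))

/-- Any two copies of `E` in `H` differ by an automorphism of `H`. -/
def Hon (H : SimpleGraph V) (E : SimpleGraph T) : Prop :=
  ∀ e e' : E ↪g H, ∃ φ : H ≃g H, ∀ t, φ (e t) = e' t

/-- No vertex is adjacent to all other vertices, and there is none which is alone. -/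
def ND (E : SimpleGraph T) : Prop := ∀ t, ∃ s, s ≠ t ∧ ¬ E.Adj t s

/-- A class of finite graphs (on types in `Type`) which is closed under isomorphisms and induced
subgraphs. -/
def Hered (C : ∀ ι : Type, SimpleGraph ι → Prop) : Prop :=
  ∀ (ι ι' : Type) [Finite ι] [Finite ι'] (Q : SimpleGraph ι) (Q' : SimpleGraph ι'), Q' ↪g Q →
    C ι Q → C ι' Q'

/-- Strong amalgamation for one-point extensions. -/
def SAP (C : ∀ ι : Type, SimpleGraph ι → Prop) : Prop :=
  ∀ (ι : Type) [Finite ι] (Q : SimpleGraph ι) (S T : ι → Prop), C _ (ext Q S) → C _ (ext Q T) →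
    ∃ e : Prop, C _ (ext2 Q S T e)

/-- The common neighbourhood of the finite set `W`, as an induced subgraph. -/
abbrev Lk (G : SimpleGraph V) (W : Finset V) : SimpleGraph {v | Full G v W} :=
  G.induce {v | Full G v W}

end UN
end SetHom
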